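import Pool.Agent.Helper29.E3.St2

/-! # Project E3: module MOM -/

set_option autoImplicit false

namespace Pool.Agent.Helper86.E3

open Finset ArithmeticFunction
open Pool.Agent.Helper29.E3 Pool.Agent.Helper49.PC
open Pool.Agent.Helper48.BK (ex th lz Vz Pz gs nd Apx AdN Sol thd)
open scoped ComplexConjugate

/-- MODULE MOM -/
theorem hMOM (hPWC : StPWC) (hMSQ : StMSQ) (hDVK : StDVK) : StMOM := by
  intro r hr
  refine ⟨(r : ℝ) ^ (2 ^ (2 * (2 * r - 1)) - 1), 2 ^ (2 * (2 * r - 1)) - 1, ?_, ?_⟩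
  · have : (0 : ℝ) < r := by exact_mod_cast hr
    positivity
  intro q _ b T N hT hb
  obtain ⟨B, hB, hS⟩ := hPWC r N b T hr hT hb
  set c : ℕ := 2 ^ (2 * (2 * r - 1)) - 1 with hc
  have hlog : 0 ≤ Real.log N := Real.log_natCast_nonneg N
  have hr1 : (1 : ℝ) ≤ r := by exact_mod_cast hr
  have e1 : (((N ^ r : ℕ) : ℕ) : ℝ) = (N : ℝ) ^ r := by push_cast; ring
  have e2 : Real.log (((N ^ r : ℕ) : ℕ) : ℝ) = r * Real.log N := by rw [e1, Real.log_pow]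
  have h2 : ∑ m ∈ Ioc 0 (0 + N ^ r), ‖B m‖ ^ 2 ≤
      T ^ (2 * r) * ((N : ℝ) ^ r * ((r : ℝ) ^ c * (1 + Real.log N) ^ c)) := by
    rw [zero_add]
    have h3 := hDVK (2 * (2 * r - 1)) (N ^ r)
    rw [e2, e1, ← hc] at h3
    have h4 : (1 + (r : ℝ) * Real.log N) ^ c ≤ (r : ℝ) ^ c * (1 + Real.log N) ^ c := by
      rw [← mul_pow]
      refine pow_le_pow_left₀ (by positivity) ?_ c
      nlinarith
    calc ∑ m ∈ Ioc 0 (N ^ r), ‖B m‖ ^ 2
        ≤ ∑ m ∈ Ioc 0 (N ^ r), T ^ (2 * r) * (m.divisors.card : ℝ) ^ (2 * (2 * r - 1)) := by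
          refine Finset.sum_le_sum fun m _ => ?_
          calc ‖B m‖ ^ 2 ≤ (T ^ r * (m.divisors.card : ℝ) ^ (2 * r - 1)) ^ 2 :=
                pow_le_pow_left₀ (norm_nonneg _) (hB m) 2
            _ = T ^ (2 * r) * (m.divisors.card : ℝ) ^ (2 * (2 * r - 1)) := by
                rw [mul_pow, ← pow_mul, ← pow_mul]
                congr 2 <;> ring
      _ = T ^ (2 * r) * ∑ m ∈ Ioc 0 (N ^ r), (m.divisors.card : ℝ) ^ (2 * (2 * r - 1)) := by
          rw [Finset.mul_sum]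
      _ ≤ T ^ (2 * r) * ((N : ℝ) ^ r * ((r : ℝ) ^ c * (1 + Real.log N) ^ c)) := by
          refine mul_le_mul_of_nonneg_left (h3.trans ?_) (by positivity)
          exact mul_le_mul_of_nonneg_left h4 (by positivity)
  have h3 := hMSQ q 0 (N ^ r) B
  calc ∑ χ : DirichletCharacter ℂ q, ‖∑ n ∈ Ioc 0 N, b n * χ (n : ZMod q)‖ ^ (2 * r)
      = ∑ χ : DirichletCharacter ℂ q, ‖∑ m ∈ Ioc 0 (0 + N ^ r), B m * χ (m : ZMod q)‖ ^ 2 := by
        refine Finset.sum_congr rfl fun χ _ => ?_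
        rw [zero_add, ← hS q χ, norm_pow, ← pow_mul]
        congr 1
        ring
    _ ≤ (((N ^ r : ℕ) : ℝ) + q) * ∑ m ∈ Ioc 0 (0 + N ^ r), ‖B m‖ ^ 2 := h3
    _ ≤ (((N ^ r : ℕ) : ℝ) + q) *
          (T ^ (2 * r) * ((N : ℝ) ^ r * ((r : ℝ) ^ c * (1 + Real.log N) ^ c))) :=
        mul_le_mul_of_nonneg_left h2 (by positivity)
    _ = (r : ℝ) ^ c * T ^ (2 * r) * ((N : ℝ) ^ r + q) * (N : ℝ) ^ r * (1 + Real.log N) ^ c := by
        rw [e1]
        ring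

end Pool.Agent.Helper86.E3
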